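import Pool.Agent.Q34.RT.Eqv

set_option autoImplicit false

/-!
# The Bombieri-Lang-Vojta equivalence and integral points over the rings of all cyclotomic integers

Let `V` be a closed subscheme of the affine `n`-space over the ring of integers of a number field `K`,
given by finitely many polynomials `F`, and `V'` the closed subscheme of `V` given by `G`. Fix an
embedding `σ` of `K` in the complex numbers. The following are equivalent:

1. every entire curve of exponential type in `V` lies in `V'`;
2. every nonconstant map from the punctured complex line to `V`, given by Laurent polynomials, lies
   in `V'`;
3. (integral points over the ring of ALL cyclotomic integers) for every number field `L ⊇ K`, all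
   `e_1, …, e_g` in `L` and all `B`, there are only finitely many points of `V` outside `V'` all of whose
   coordinates are sums `∑ e_i β_i`, where the `β_i` are cyclotomic integers of any conductor, all of
   whose conjugates have absolute value at most `B`;
4. (explicit orders) for all number fields `L ⊇ K`, all `r` and ALL vectors `V_1, …, V_r` over `L`, every
   point of `V` outside `V'` of the form `∑ u_j V_j`, with roots of unity or zero `u_j`, is also given by
   zero or roots of unity of one order `m ≤ (9 (r + 1) d [L : ℚ]) ^ (2 (r + 1))`, where `d` bounds the
   degrees of the polynomials in `F`;
5. (Northcott property of sums of radicals) for every number field `L ⊇ K`, all `r` and `H`, there are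
   only finitely many points of `V` outside `V'` of height at most `H` of the form `∑ u_j V_j`, a sum of
   `r` terms, where the `V_j` are vectors over `L` and the `u_j` are radicals over `L`, that is, algebraic
   numbers of any degree with a power in `L`;
6. (explicit exponents) for all number fields `L ⊇ K`, all `r` and ALL vectors `V_1, …, V_r` over `L`,
   every point of `V` outside `V'` of the form `∑ u_j V_j`, with radicals `u_j` over `L`, is also given by
   `w_j` with `w_j ^ B ∈ L` for one exponent `B ≤ radBound (r + 1) d [L : ℚ]`.

Both conditions of the Bombieri-Lang-Vojta conjecture, (i) on all entire curves and (ii) on the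
`S`-integral points over all number fields, imply these. The points in 3, 4, 5 and 6 are not defined over
a fixed number field.

Method: `2 → 4` and `2 → 6`. By Dirichlet's theorem on simultaneous approximation, a point given by
roots of unity of a large order (or by radicals on which the Galois group acts through roots of unity of
a large order) has enough conjugates on a curve `T ↦ ∑ T ^ (s_j) u_j V_j` with small integral exponents,
positive or negative, that the whole curve lies on `V`. By `2` it is constant, and the point is a sum over
those `j` with `s_j = 0`. For radicals, the commutators in the Galois group (Sah's lemma) reduce to roots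
of unity after an extension of `L` of bounded degree. `4 → 3` uses Loxton's theorem on cyclotomic integers
of bounded house, which is in the starting library, as are `1 ↔ 2` and the Laurent curves over number
fields used in `3 → 1` and `5 → 1`.
-/

namespace Pool.Agent.Results.MP_e97a4d_nt.CyclotomicIntegralPoints

open MvPolynomial Pool.Agent.W235.RM Pool.Agent.Q34.RT
open Pool.Agent.H159R3.Exp (ExpCurvesIn FinitelyManyIntegral)
open scoped NumberField

theorem result {K : Type} [Field K] [NumberField K] (σ : K →+* ℂ) {ι κ : Type} [Finite ι] {n : ℕ}
    (F : ι → MvPolynomial (Fin n) (𝓞 K)) (G : κ → MvPolynomial (Fin n) (𝓞 K)) :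
    List.TFAE [ExpCurvesIn σ F G, GmCurvesIn σ F G, CycIntegralFinite F G, OrdersBounded F G,
      RadicalNorthcott F G, ExponentsBounded F G] ∧
    (EntireCurvesIn σ F G → CycIntegralFinite F G ∧ RadicalNorthcott F G) ∧
    (FinitelyManyIntegral F G → CycIntegralFinite F G ∧ RadicalNorthcott F G) := by
  have h := Pool.Agent.Q34.RT.tfae σ F G
  refine ⟨h, fun h1 => ?_, fun h1 => ?_⟩
  · have h2 := exp_of_entire σ F G h1
    exact ⟨(h.out 0 2).1 h2, (h.out 0 4).1 h2⟩
  · have h2 : ExpCurvesIn σ F G :=
      ((Pool.Agent.W235.RM.tfae σ F G).out 5 0).1 (rec_of_integral F G h1)
    exact ⟨(h.out 0 2).1 h2, (h.out 0 4).1 h2⟩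

end Pool.Agent.Results.MP_e97a4d_nt.CyclotomicIntegralPoints
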