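import Mathlib
import Pool.Agent.Q103.AR.Stm

/-!
# Condition (ii) implies condition (i) for projective surfaces which carry a map with many preperiodic
points

`V` is a projective scheme over the integers of the number field `k`, and `V'` a closed subscheme; their
generic fibres `X`, `X'` are defined by forms `F` and `G` over `k`. Since `V` is proper, `V(O_S) = X(L)`
for all finite sets `S` of places of a finite extension `L` of `k`, so that condition (ii) says that
`X(L) \ X'(L)` is finite for all `L`.

`IsModel σ F x` (`Pool/Agent/Q103/AR/Stm.lean`): the complex surface `X_σ` is integral (no smoothness is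
assumed), with the generic point `x`: homogeneous coordinates in its function field `K` whose ratios
generate `K`; the forms `σ F` vanish at `x`, and all common zeros of the forms `σ F` are points of the
variety with the generic point `x`. `Points F L` is `X(L)`, a subset of `ℙ ^ M (L)`.

`ManyPrep ℂ d B p q` (`Pool/Agent/Q103/EC/Mxv.lean`): `f = p / q` is a rational map of the projective
line over `K` of degree `d` (a family of rational maps over an open subset of `X`) with at least `B`
preperiodic points in `P^1(K)` and with generically finite moduli map `X_σ ⇢ M_d`, i.e. maximal variation
(`MaxVar`): whenever `f` is conjugate over an algebraic closure of `K` to a map with coefficients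
algebraic over a field `F` between `ℂ` and `K`, then `K` is algebraic over `F`. For instance all
generically finite covers, over number fields, of the surfaces of the quadratic maps with a marked point
of exact period `n ≥ B`, `3` (these are defined over the rational numbers) are such surfaces.

Proof. The Zariski closure of an entire curve in `X_σ` is the image of an elliptic curve (projects GT of
helper41, EC, KO and SF of helper103, see `MP_c6ff8d_ag.ManyPreperiodicSurfaces`). A nonconstant map from
an elliptic curve to `X_σ` with image not in `X'_σ` is given by finitely many elements of the coordinate
ring, which satisfy polynomial identities with coefficients in a finitely generated `k`-algebra. By the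
Nullstellensatz these can be specialized to a finite extension of `k`, and over a further extension the
specialized cubic has infinitely many points (`Pool/Agent/Q103/AR`).
-/

set_option autoImplicit false

namespace Pool.Agent.Results.MP_e97a4d_nt.ManyPreperiodicSurfaces

open Polynomial
open Pool.Agent.W602.GT
open Pool.Agent.Y221.BD (EntireCurve)
open Pool.Agent.Q103.EC (ManyPrep)
open Pool.Agent.Q103.SF
open Pool.Agent.Q103.AR (IsModel Points low_of_finite)

/-- For every `d ≥ 2` there is `B` such that for every number field `k` in the complex numbers and every
projective surface `X` over `k` such that the function field of `X_ℂ` carries a rational map of degree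
`d` with at least `B` preperiodic points and generically finite moduli map, and for every closed subset
`X'` of `X` defined over `k`: if `X(L) \ X'(L)` is finite for every finite extension `L` of `k`, then the
image of every nonconstant entire curve in `X_ℂ` lies in `X'_ℂ`. -/
theorem result (d : ℕ) (hd : 2 ≤ d) :
    ∃ B : ℕ, ∀ (k : Type) [Field k] [NumberField k] (σ : k →+* ℂ) (M : ℕ) (ι κ : Type)
      (F : ι → MvPolynomial (Fin (M + 1)) k) (G : κ → MvPolynomial (Fin (M + 1)) k)
      (K : Type) [Field K] [Algebra ℂ K] (x : Fin (M + 1) → K), x ≠ 0 → coords ℂ x = ⊤ →
      Algebra.trdeg ℂ K = (2 : ℕ) → IsModel σ F x → (∀ j, IsForm (G j)) →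
      ∀ p q : K[X], ManyPrep ℂ d B p q →
      (∀ (L : Type) [Field L] [NumberField L] [Algebra k L], (Points F L \ Points G L).Finite) →
      ∀ f, EntireCurve x f → ∀ (j : κ) (t : ℂ),
        MvPolynomial.eval (fun i => f i t) (MvPolynomial.map σ (G j)) = 0 := by
  obtain ⟨B, hB⟩ := surface_tfae d hd
  refine ⟨B, fun k _ _ σ M ι κ F G K _ _ x hx hgen htr hF hG p q h hfin f hf j t => ?_⟩
  obtain ⟨-, h2, -⟩ := hB K p q h htr M x hx hgen
  exact (low_of_finite σ hF h2 hG hfin _ (h2.entire f hf) j).2 t (Set.mem_univ t)

end Pool.Agent.Results.MP_e97a4d_nt.ManyPreperiodicSurfaces
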