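import Pool.Agent.Q64.LC.Vjp

/-!
# Integral points and entire curves of slow growth

There is one function `Ψ`, growing faster than all polynomials, with the following properties for
all number fields `F₀`, all embeddings `ε : F₀ → ℂ`, all `n`, all ideals `I`, `I'` and all forms `Q`
of degree `q` in the polynomial ring in `n + 1` variables over the integers of `F₀`. Let `V` be the
complement of the hypersurface `Q = 0` in the closed subscheme of the projective space given by the
forms in `I`, and let `V'` be its closed subscheme given by the forms in `I'`. For example, `V` may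
be any affine scheme of finite type (`Q = X₀`), or any projective scheme (`Q = 1`).

Slow curves are the entire curves in `V` with homogeneous coordinates `f` such that `Q (f z)` is
constant and `‖f z‖ ≤ C * Ψ ‖z‖` for large `z`.

(A) The following are equivalent: all slow curves lie in `V'`; the points with algebraic coordinates
on the slow curves lie in `V'`; all nonconstant morphisms from the affine line to `V` over `ℂ` have
their image in `V'`; all sequences of `S`-integral points of `V` outside of `V'`, whose homogeneous
coordinates are polynomials in the index, have finitely many different terms; and, if `V` is given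
by forms of degree at most `D`, the same as the first condition for all holomorphic curves in `V`
(entire, or on discs) whose power series has infinitely many gaps `(α, β)` with `D α < β`.

(B) Hence condition (ii) implies that all slow curves, and all curves with gaps, lie in `V'`.

(C) Finitely many points with algebraic coordinates outside of `V'` on a slow curve are the first
terms of a polynomial sequence of `S`-integral points of `V` outside of `V'` with infinitely many
different terms.
-/

set_option autoImplicit false

namespace Pool.Agent.Results.MP_e97a4d_nt.SlowEquivalence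

open MvPolynomial IsDedekindDomain NumberField Pool.Agent.Q64.LC.Vjd
open scoped LinearAlgebra.Projectivization

theorem result : ∃ Ψ : ℝ → ℝ, FastGrowing Ψ ∧ ∀ (F₀ : Type) [Field F₀] [NumberField F₀]
    (ε : F₀ →+* ℂ) (n : ℕ) (I I' : Ideal (MvPolynomial (Fin (n + 1)) (𝓞 F₀)))
    (Q : MvPolynomial (Fin (n + 1)) (𝓞 F₀)) (q : ℕ), Q.IsHomogeneous q →
    -- (A) equivalences
    [SlowIn Ψ ε I I' Q, SlowAlgIn Ψ ε I I' Q, A1In ε I I' Q, CondIIPoly I I' Q q].TFAE ∧
    (∀ D : ℕ, 1 ≤ D → q ≤ D → CutOut D (embC ε) I →
      [SlowIn Ψ ε I I' Q, GapEntire D ε I I' Q, GapDiscs D ε I I' Q].TFAE) ∧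
    -- (B) condition (ii)
    (CondII I I' Q q → SlowIn Ψ ε I I' Q) ∧
    -- (C) algebraic points
    (∀ f, EntireIn ε I Q f → GrowthAtMost Ψ f → ∀ (r : ℕ) (z : Fin (r + 1) → ℂ),
      (∀ i, AlgebraicPt (f (z i)) ∧ ¬ IsZero (embC ε) I' (f (z i))) →
      ∃ (L : Type) (_ : Field L) (_ : NumberField L) (_ : Algebra F₀ L) (e : L →+* ℂ)
        (_ : e.comp (algebraMap F₀ L) = ε) (S : Set (HeightOneSpectrum (𝓞 L))) (_ : S.Finite)
        (x : ℕ → Fin (n + 1) → L) (hx : ∀ m, x m ≠ 0), (∀ j, IsPolySeq fun m => x m j) ∧
        (∀ m, Projectivization.mk L (x m) (hx m) ∈ OffPts L S I I' Q q) ∧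
        (Set.range fun m => Projectivization.mk L (x m) (hx m)).Infinite ∧
        ∀ i : Fin (r + 1), ∃ c : ℂ, f (z i) = fun j => c * e (x i j)) :=
  main

end Pool.Agent.Results.MP_e97a4d_nt.SlowEquivalence
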