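import Pool.Agent.Q72.OK.Aff
import Pool.Agent.Q72.OK.A1c

/-!
MP_e97a4d_nt, Q1, for affine schemes: truncated inequalities for all entire curves outside of `V'`
are equivalent to the finiteness of the points of `V` outside of `V'` whose coordinates are
`S`-units or zero; condition (ii) implies them for all linear coordinates.
-/

set_option autoImplicit false

namespace Pool.Agent.Results.MP_e97a4d_nt.TruncatedInequality

open MvPolynomial
open Pool.Agent.Q72.OK Pool.Agent.Q72.OK.Aff
open Pool.Agent.Q72.TR (Trunc MultGe)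
open Pool.Agent.H159R3.Exp (FinitelyManyIntegral)
open Pool.Agent.W235.RM (EntireCurvesIn GmCurvesIn tfae rec_of_integral)
open scoped NumberField

/-- For all `n` and `d` there are `ε > 0`, `B` and `m` such that the following is true for all
number fields `K` in `ℂ` (via `σ`) and all affine schemes `V`, `V'` in affine `n`-space over the
integers of `K`, where `V` is given by (finitely many) polynomials of degrees at most `d`.

(A) The following are equivalent: (1) for all number fields `L` over `K` and all finitely generated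
groups `Γ` (for instance the `S`-units) only finitely many points of `V` outside `V'` have their
coordinates in `Γ ∪ {0}`; (2) all nonconstant monomial curves `(x_j t ^ k_j)`, `|k_j| ≤ B`, in
`V(ℂ)` lie in `V'`; (3) for all nonconstant entire curves in `V(ℂ)` which do not lie in `V'` the
inequality `ε T(r) ≤ N(r)` is true for all `r` outside of a set of finite measure, where `N` counts
the zeros of the nonzero coordinates, each zero counted once; (4) for all such curves a nonzero
coordinate has a zero of multiplicity less than `m`.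

(B) Condition (i) of the problem implies (1)-(4), and condition (ii) implies (3) and (4) for all
such curves and ALL systems of `n + 1` linearly independent affine-linear functions in place of
`1` and the coordinates. -/
theorem result (n d : ℕ) : ∃ (ε : ℝ) (B m : ℕ), 0 < ε ∧
    ∀ (K : Type) [Field K] [NumberField K] (σ : K →+* ℂ) (ι κ : Type) [Finite ι]
      (F : ι → MvPolynomial (Fin n) (𝓞 K)) (G : κ → MvPolynomial (Fin n) (𝓞 K)),
      (∀ i, (F i).totalDegree ≤ d) →
      List.TFAE [UnitFinite F G, MonIn σ F G B,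
        ∀ f, Curve σ F f → Off σ G f → Trunc ε LinearMap.id 1 (hat f),
        ∀ f, Curve σ F f → Off σ G f → ¬ MultGe m LinearMap.id 1 (hat f)] ∧
      (EntireCurvesIn σ F G → MonIn σ F G B) ∧
      (FinitelyManyIntegral F G →
        ∀ (ℓ : (Fin (n + 1) → ℂ) ≃ₗ[ℂ] (Fin (n + 1) → ℂ)) (f : ℂ → Fin n → ℂ), Curve σ F f →
          Off σ G f → Trunc ε (ℓ : (Fin (n + 1) → ℂ) →ₗ[ℂ] (Fin (n + 1) → ℂ)) 1 (hat f) ∧
            ¬ MultGe m (ℓ : (Fin (n + 1) → ℂ) →ₗ[ℂ] (Fin (n + 1) → ℂ)) 1 (hat f)) := by
  obtain ⟨ε, B, m, hε, h⟩ := tfae_aff n d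
  refine ⟨ε, B, m, hε, fun K _ _ σ ι κ _ F G hF => ?_⟩
  obtain ⟨h1, h2⟩ := h K σ ι κ F G hF
  have hB := h1 B le_rfl
  have t12 := hB.out 0 1
  have t13 := hB.out 0 2
  have hall : MonIn σ F G B → ∀ B', MonIn σ F G B' := by
    intro h0 B' x k hM t ht l
    have t1 := (h1 (max B B') (le_max_left _ _)).out 0 1
    exact t1.2 (t12.1 h0) x k ⟨fun j => (hM.le j).trans (by
      have := le_max_right B B'
      exact_mod_cast this), hM.nc, hM.mem⟩ t ht l
  refine ⟨?_, fun hi => ?_, fun hii ℓ f hf hoff => ?_⟩
  · tfae_have 1 → 2 := fun h => mon_of_unit h B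
    tfae_have 2 → 1 := fun h => unit_of_mon a1_pt (hall h)
    tfae_have 2 ↔ 3 := t12
    tfae_have 2 ↔ 4 := t13
    tfae_finish
  · -- condition (i)
    intro x k hM t ht l
    have h3 := hi (fun z j => x j * Complex.exp z ^ k j) (by
      rw [differentiable_pi]
      intro j
      refine Differentiable.const_mul ?_ _
      have h4 : (fun z => Complex.exp z ^ k j) = fun z => Complex.exp (k j * z) := by
        funext z
        rw [Complex.exp_int_mul]
      rw [h4]
      fun_prop) (fun z i => hM.mem _ (Complex.exp_ne_zero z) i) (by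
      obtain ⟨j, hj, hkj⟩ := hM.nc
      refine ⟨Complex.log 2, 0, fun hcon => ?_⟩
      have h4 := congrFun hcon j
      simp only [Complex.exp_log (by norm_num : (2 : ℂ) ≠ 0), Complex.exp_zero, one_zpow,
        mul_one] at h4
      have h5 : (2 : ℂ) ^ k j = 1 := mul_left_cancel₀ hj (by rw [h4, mul_one])
      have h6 : ‖(2 : ℂ) ^ k j‖ = 1 := by rw [h5, norm_one]
      rw [norm_zpow, Complex.norm_ofNat] at h6
      have h7 := (zpow_right_injective₀ (a := (2 : ℝ)) (by norm_num) (by norm_num))
        (a₁ := k j) (a₂ := 0) (by simpa using h6)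
      exact hkj h7) (Complex.log t) l
    simp only [Complex.exp_log ht] at h3
    exact h3
  · -- condition (ii)
    have hgm : GmCurvesIn σ F G := ((tfae σ F G).out 1 5).2 (rec_of_integral F G hii)
    exact h2 _ _ (inv_equiv ℓ) (fun x k hnc hmem h0 t ht l =>
      mon_of_gm hgm (ℓ := (ℓ : (Fin (n + 1) → ℂ) →ₗ[ℂ] (Fin (n + 1) → ℂ)))
        (S := (ℓ.symm : (Fin (n + 1) → ℂ) →ₗ[ℂ] (Fin (n + 1) → ℂ))) (inv_equiv ℓ) x k hnc hmem h0
        t ht l) f hf hoff

end Pool.Agent.Results.MP_e97a4d_nt.TruncatedInequality
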